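import Pool.Agent.Lib.MP_c7af3c_ag.T2C.H60.Uniq
import Pool.Agent.Lib.MP_c7af3c_ag.T2C.H8.StabC
import Pool.Agent.Lib.MP_c7af3c_ag.T2C.H2.Curve

/-!
# MP_c7af3c_ag, project T2C: row P25 (helper96)

Type (2, 2, 2, 2, 2): the plane type is impossible. The restrictions of the five quadrics span a
space `Q` of dimension at most two. Dimension at most one is excluded by the count for conics, in
dimension two `Q` is stable under the vector fields of the plane which fix the point.
-/

set_option autoImplicit false

namespace Pool.Agent.T2C.H96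

open MvPolynomial Pool.Agent.Gen Pool.Agent.Sharp Pool.Agent.Edge
open Pool.Agent.T2C.H8 (Fix T3 HomC lift rs RC sm mulC dT PlC)
open Pool.Agent.Sharp.H75 (dco DG af)
open Pool.Agent.Edge.H65 (ssub)

/-! ### algebra: quadrics stable under the vector fields which fix the point -/

section alg

variable {K : Type} [Field K]

theorem af_single (v l : Fin 3 → K) (u : MvPolynomial (Fin 3) K) :
    af (fun j i => v j * l i) u = H75.lf l * ∑ j, C (v j) * pderiv j u := by
  unfold af H75.lf
  rw [Finset.mul_sum]
  refine Finset.sum_congr rfl fun j _ => ?_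
  rw [Finset.sum_mul, Finset.sum_mul]
  refine Finset.sum_congr rfl fun i _ => ?_
  rw [C_mul]
  ring

theorem const_of_hom0 {u : MvPolynomial (Fin 3) K} (hu : u.IsHomogeneous 0) :
    ∃ c, u = C c := by
  refine ⟨coeff 0 u, ?_⟩
  have h := hu.totalDegree_le
  exact totalDegree_eq_zero_iff_eq_C.1 (Nat.le_zero.1 h)

theorem pderiv_ne [CharZero K] {u : MvPolynomial (Fin 3) K} {e : ℕ} (hu : u.IsHomogeneous e)
    (he : e ≠ 0) (h0 : u ≠ 0) : ∃ j, pderiv j u ≠ 0 := by
  by_contra h
  push Not at h
  have h1 := hu.sum_X_mul_pderiv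
  simp only [h, mul_zero, Finset.sum_const_zero] at h1
  have h2 : ((e : ℕ) : K) ≠ 0 := Nat.cast_ne_zero.2 he
  rw [← Nat.cast_smul_eq_nsmul K] at h1
  exact h0 ((smul_eq_zero.1 h1.symm).resolve_left h2)

/-- a space of quadrics of dimension two is not stable under the vector fields `l ∂_v`, `l(y) = 0` -/
theorem stable_false [CharZero K] {y : Fin 3 → K} (y0 : y 0 = 1)
    (Q : Submodule K (MvPolynomial (Fin 3) K)) [FiniteDimensional K Q]
    (hd : Module.finrank K Q ≤ 2) (hh : ∀ u ∈ Q, u.IsHomogeneous 2)
    (hst : ∀ u ∈ Q, ∀ v l : Fin 3 → K, ∑ i, l i * y i = 0 →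
      H75.lf l * ∑ j, C (v j) * pderiv j u ∈ Q) {u : MvPolynomial (Fin 3) K} (hu : u ∈ Q)
    (h0 : u ≠ 0) : False := by
  classical
  have hsg : ∀ (j : Fin 3) (w : MvPolynomial (Fin 3) K),
      ∑ k, C ((Pi.single j (1 : K) : Fin 3 → K) k) * pderiv k w = pderiv j w := by
    intro j w
    rw [Finset.sum_eq_single j]
    · rw [Pi.single_eq_same, C_1, one_mul]
    · intro k _ hk
      rw [Pi.single_eq_of_ne hk, C_0, zero_mul]
    · intro h; exact absurd (Finset.mem_univ _) h
  obtain ⟨j, hj⟩ := pderiv_ne (hh u hu) two_ne_zero h0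
  set m := pderiv j u with hm
  have hmh : m.IsHomogeneous 1 := (hh u hu).pderiv
  obtain ⟨w, hw⟩ := pderiv_ne hmh one_ne_zero hj
  obtain ⟨c, hc⟩ := const_of_hom0 (hmh.pderiv (i := w))
  have hc0 : c ≠ 0 := by
    rintro rfl
    rw [C_0] at hc
    exact hw hc
  -- the forms which vanish at the point
  have key : ∀ l l' : Fin 3 → K, ∑ i, l i * y i = 0 → ∑ i, l' i * y i = 0 →
      H75.lf l * H75.lf l' ∈ Q := by
    intro l l' hl hl'
    have h1 : ∀ l : Fin 3 → K, ∑ i, l i * y i = 0 → H75.lf l * m ∈ Q := by
      intro l hl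
      have := hst u hu (Pi.single j 1) l hl
      rwa [hsg] at this
    have h2 := hst _ (h1 l hl) (Pi.single w 1) l' hl'
    rw [hsg, Derivation.leibniz, hc, smul_eq_mul, smul_eq_mul] at h2
    obtain ⟨b, hb⟩ := const_of_hom0 ((H75.lf_hom l).pderiv (i := w))
    rw [hb] at h2
    have h3 := Q.smul_mem b (h1 l' hl')
    have h4 := Q.sub_mem h2 h3
    have h5 : H75.lf l' * (H75.lf l * C c + m * C b) - b • (H75.lf l' * m) =
        c • (H75.lf l * H75.lf l') := by
      rw [smul_eq_C_mul, smul_eq_C_mul]
      ring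
    rw [h5] at h4
    have h6 := Q.smul_mem c⁻¹ h4
    rwa [inv_smul_smul₀ hc0] at h6
  let l1 : Fin 3 → K := ![-y 1, 1, 0]
  let l2 : Fin 3 → K := ![-y 2, 0, 1]
  have hl1 : ∑ i, l1 i * y i = 0 := by
    simp [l1, Fin.sum_univ_three, y0]
  have hl2 : ∑ i, l2 i * y i = 0 := by
    simp [l2, Fin.sum_univ_three, y0]
  let F : Fin 3 → Q := ![⟨_, key l1 l1 hl1 hl1⟩, ⟨_, key l1 l2 hl1 hl2⟩,
    ⟨_, key l2 l2 hl2 hl2⟩]
  have hli : LinearIndependent K F := by
    rw [Fintype.linearIndependent_iff]
    intro g hg
    have h1 : g 0 • (H75.lf l1 * H75.lf l1) + g 1 • (H75.lf l1 * H75.lf l2) +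
        g 2 • (H75.lf l2 * H75.lf l2) = 0 := by
      have := congrArg (Submodule.subtype Q) hg
      rw [map_sum, Fin.sum_univ_three] at this
      simpa [F] using this
    have e1 : ∀ z : Fin 3 → K, eval z (H75.lf l1) = -y 1 * z 0 + z 1 := by
      intro z
      simp [H75.lf, l1, Fin.sum_univ_three]
    have e2 : ∀ z : Fin 3 → K, eval z (H75.lf l2) = -y 2 * z 0 + z 2 := by
      intro z
      simp [H75.lf, l2, Fin.sum_univ_three]
    have h2 : ∀ z : Fin 3 → K, g 0 * ((-y 1 * z 0 + z 1) * (-y 1 * z 0 + z 1)) +
        g 1 * ((-y 1 * z 0 + z 1) * (-y 2 * z 0 + z 2)) +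
        g 2 * ((-y 2 * z 0 + z 2) * (-y 2 * z 0 + z 2)) = 0 := by
      intro z
      have := congrArg (eval z) h1
      simpa [smul_eval, e1, e2] using this
    have a1 := h2 ![0, 1, 0]
    have a2 := h2 ![0, 0, 1]
    have a3 := h2 ![0, 1, 1]
    simp at a1 a2 a3
    rw [a1, a2] at a3
    simp at a3
    intro i
    fin_cases i
    · exact a1
    · exact a3
    · exact a2
  have := hli.fintype_card_le_finrank
  rw [Fintype.card_fin] at this
  omega

end alg

/-! ### the row -/

section

variable {K : Type} [Field K] {n c : ℕ} {d : Fin c → ℕ} {D : DSys K n c d}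
  {x : Fin (n + 1) → K} {t : Fin 3 → Fin (n + 1)} {P : Fin 3 → Fin (n + 1) → K}

/-- the frame is linearly independent -/
theorem frame_li (h : Pl D x t P) : LinearIndependent K P := by
  rw [Fintype.linearIndependent_iff]
  intro g hg i
  have := congrFun hg (t i)
  rw [Finset.sum_apply, Finset.sum_eq_single i] at this
  · rwa [Pi.smul_apply, h.Pt, if_pos rfl, smul_eq_mul, mul_one] at this
  · intro j _ hj
    rw [Pi.smul_apply, h.Pt, if_neg hj, smul_zero]
  · intro h; exact absurd (Finset.mem_univ _) h

/-- the vector fields on the plane which fix the point -/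
theorem af_mem_RC [CharZero K] (hPc : PcanStatement) (ty : Ty n c d) (h : Pl D x t P)
    (L : Fin 3 → Fin 3 → K) (l : K) (hL : ∀ j, ∑ i, L j i * x (t i) = l * x (t j)) :
    (fun m => af L (fP D P m)) ∈ RC D x t P := by
  let e : Fin 3 → Fin (n + 1) → K := fun i f => ∑ j, L j i * P j f
  have hE : ∀ i f, ∑ r, H8.ext t e f r * P i r = e i f := fun i f => H8.ext_P h.Pt e i f
  have hx : ∀ f, ∑ q, H8.ext t e f q * x q = l * x f := by
    intro f
    rw [H8.ext_dot, h.xP f, Finset.mul_sum]
    simp only [e, Finset.sum_mul]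
    rw [Finset.sum_comm]
    refine Finset.sum_congr rfl fun j _ => ?_
    have : ∑ i, L j i * P j f * x (t i) = P j f * ∑ i, L j i * x (t i) := by
      rw [Finset.mul_sum]
      exact Finset.sum_congr rfl fun i _ => by ring
    rw [this, hL]
    ring
  have hm : ∀ j i, mat t P (H8.ext t e) j i = L j i := by
    intro j i
    unfold mat
    rw [hE]
    simp only [e]
    rw [Finset.sum_eq_single j]
    · rw [h.Pt, if_pos rfl, mul_one]
    · intro k _ hk
      rw [h.Pt, if_neg hk, mul_zero]
    · intro h; exact absurd (Finset.mem_univ _) h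
  obtain ⟨c1, c2⟩ := (hPc K n c d D x t P ty h).1 (H8.ext t e)
  have hF : Fix D x P (fun m => af (H8.ext t e) (D.F m)) := by
    refine ⟨fun f => ?_, fun i f => ?_⟩
    · have h1 := c1 f
      rw [hx, hx, h.x0, mul_one] at h1
      exact left_eq_add.1 (h1.symm.trans (add_comm _ _)) |> fun h => by simpa using h
    · have h1 := c2 i f
      rw [hE] at h1
      simp only [hm] at h1
      simpa [e] using h1
  have hh : H75.Hom d (fun m => af (H8.ext t e) (D.F m)) := fun m => H75.af_hom _ (D.hom m)
  have h2 := (H8.fix_iff h.plC hh).1 hF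
  have h3 : rs P (fun m => af (H8.ext t e) (D.F m)) = fun m => af L (fP D P m) := by
    have h4 : rs P (fun m => af (H8.ext t e) (D.F m)) =
        H8.phiC D P fun i f => ∑ q, H8.ext t e f q * P i q := H8.rs_afT (D := D) _
    rw [h4]
    funext m
    change _ = af L (rs P D.F m)
    rw [H8.af_rs]
    have h5 : (fun i f => ∑ q, H8.ext t e f q * P i q) = e := by
      funext i f
      exact hE i f
    rw [h5]
  rwa [h3] at h2

end

theorem p25 : P25Statement := by
  classical
  intro hPc hPhi _ K _ _ n d D x t P ty h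
  have hn := ty.hn
  have hd : ∀ m, d m = 2 := by
    have h1 : ∑ m, (d m - 2) = 0 := by
      have h2 : ∑ m, d m = ∑ m, ((d m - 2) + 2) :=
        Finset.sum_congr rfl fun m _ => (Nat.sub_add_cancel (ty.two m)).symm
      rw [ty.sum, Finset.sum_add_distrib] at h2
      simp at h2
      simpa using h2
    intro m
    have h3 := (Finset.sum_eq_zero_iff.1 h1) m (Finset.mem_univ _)
    have h4 := ty.two m
    omega
  have hd' : d = fun _ => 2 := funext hd
  have rt := hPhi hPc K n 5 d D x t P ty h
  have hfin : Module.finrank K (ST K d) = 30 := by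
    rw [H60.finrank_ST]
    simp [hd, Nat.choose]
  have h10 : Module.finrank K (RC D x t P) = 10 := by
    have := rt.dim
    omega
  have : FiniteDimensional K (RC D x t P) := Module.finite_of_finrank_pos (by omega)
  have hf2 : ∀ m, (fP D P m).IsHomogeneous 2 := by
    intro m
    have := H65.ssub_hom P (D.hom m)
    rwa [hd] at this
  let Q : Submodule K (MvPolynomial (Fin 3) K) := Submodule.span K (Set.range (fP D P))
  have : FiniteDimensional K Q := FiniteDimensional.span_of_finite K (Set.finite_range _)
  have hQ2 : ∀ u ∈ Q, u.IsHomogeneous 2 := by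
    intro u hu
    have : Q ≤ homogeneousSubmodule (Fin 3) K 2 := by
      refine Submodule.span_le.2 ?_
      rintro _ ⟨m, rfl⟩
      exact hf2 m
    exact this hu
  -- the tuples with components in `Q`
  have hs : ∀ m m', (Pi.single m (fP D P m') : T3 K 5) ∈ RC D x t P := by
    intro m m'
    let B : Fin 5 → Fin 5 → MvPolynomial (Fin (n + 1)) K :=
      fun a b => if a = m ∧ b = m' then 1 else 0
    have hB : B ∈ BF K (Fin (n + 1)) d := by
      intro a b
      refine ⟨fun _ => ?_, fun hlt => ?_⟩
      · rw [hd, hd]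
        simp only [B]
        split_ifs
        · exact isHomogeneous_one _ _
        · exact isHomogeneous_zero _ _ _
      · rw [hd, hd] at hlt
        exact absurd hlt (lt_irrefl _)
    have h1 := (hPc K n 5 d D x t P ty h).2 B hB
    have hbm : ∀ a, bmul B D.F a = if a = m then D.F m' else 0 := by
      intro a
      unfold bmul
      simp only [B]
      by_cases ha : a = m
      · rw [if_pos ha, Finset.sum_eq_single m']
        · rw [if_pos ⟨ha, rfl⟩, one_mul]
        · intro b _ hb
          rw [if_neg (fun h => hb h.2), zero_mul]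
        · intro h; exact absurd (Finset.mem_univ _) h
      · rw [if_neg ha]
        refine Finset.sum_eq_zero fun b _ => ?_
        rw [if_neg (fun h => ha h.1), zero_mul]
    have hh : H75.Hom d (bmul B D.F) := by
      intro a
      rw [hbm]
      split_ifs
      · have := D.hom m'
        rw [hd] at this ⊢
        exact this
      · exact isHomogeneous_zero _ _ _
    have h2 := (H8.fix_iff h.plC hh).1 h1
    have h3 : rs P (bmul B D.F) = Pi.single m (fP D P m') := by
      funext a
      rw [H8.rs_apply, hbm]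
      by_cases ha : a = m
      · subst ha
        rw [if_pos rfl, Pi.single_eq_same]
        rfl
      · rw [if_neg ha, map_zero, Pi.single_eq_of_ne ha]
    rwa [h3] at h2
  have hsQ : ∀ u ∈ Q, ∀ m, (Pi.single m u : T3 K 5) ∈ RC D x t P := by
    intro u hu m
    have : Q ≤ (RC D x t P).comap (LinearMap.single K (fun _ : Fin 5 =>
        MvPolynomial (Fin 3) K) m) := by
      refine Submodule.span_le.2 ?_
      rintro _ ⟨m', rfl⟩
      exact hs m m'
    exact this hu
  let T : Submodule K (T3 K 5) := Submodule.pi Set.univ fun _ => Q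
  have hT : T ≤ RC D x t P := by
    intro g hg
    have h1 : g = ∑ m, Pi.single m (g m) := (Finset.univ_sum_single g).symm
    rw [h1]
    exact Submodule.sum_mem _ fun m _ => hsQ _ (hg m trivial) m
  have hTf : Module.finrank K T = 5 * Module.finrank K Q := by
    have := H11.finrank_piS (K := K) (c := 5) (fun _ => Q)
    simpa using this
  have hle : Module.finrank K T ≤ 10 := by
    have := Submodule.finrank_mono hT
    omega
  by_cases hQ1 : Module.finrank K Q ≤ 1
  · -- all restrictions are multiples of one quadric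
    obtain ⟨q, hq2, hq0, hq⟩ : ∃ q : MvPolynomial (Fin 3) K, q.IsHomogeneous 2 ∧ q ≠ 0 ∧
        ∀ m, q ∣ fP D P m := by
      by_cases h0 : ∀ m, fP D P m = 0
      · refine ⟨X 0 * X 0, (isHomogeneous_X K 0).mul (isHomogeneous_X K 0),
          mul_ne_zero (X_ne_zero _) (X_ne_zero _), fun m => ?_⟩
        rw [h0]
        exact dvd_zero _
      · push Not at h0
        obtain ⟨m0, hm0⟩ := h0
        refine ⟨fP D P m0, hf2 m0, hm0, fun m => ?_⟩
        have hu0 : (⟨fP D P m0, Submodule.subset_span ⟨m0, rfl⟩⟩ : Q) ≠ 0 := by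
          intro h
          exact hm0 (congrArg Subtype.val h)
        have hp : 0 < Module.finrank K Q := Module.finrank_pos_iff_exists_ne_zero.2 ⟨_, hu0⟩
        obtain ⟨e, he⟩ := (finrank_eq_one_iff_of_nonzero' _ hu0).1
          (le_antisymm hQ1 hp)
          ⟨fP D P m, Submodule.subset_span ⟨m, rfl⟩⟩
        have he' : e • fP D P m0 = fP D P m := congrArg Subtype.val he
        exact ⟨C e, by rw [← he', smul_eq_C_mul, mul_comm]⟩
    refine H2.nocurve D (frame_li h) (e := 2) (by norm_num) hq2 hq0 ?_ hq
    simp only [hd]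
    subst hn
    norm_num [Nat.choose]
  · have h2 : Module.finrank K Q = 2 := by omega
    have hTe : T = RC D x t P := Submodule.eq_of_le_of_finrank_le hT (by omega)
    -- the stability
    have hst1 : ∀ L : Fin 3 → Fin 3 → K, ∀ l, (∀ j, ∑ i, L j i * x (t i) = l * x (t j)) →
        ∀ u ∈ Q, af L u ∈ Q := by
      intro L l hL u hu
      have h3 := af_mem_RC hPc ty h L l hL
      rw [← hTe] at h3
      refine Submodule.span_induction (p := fun u _ => af L u ∈ Q) ?_ ?_ ?_ ?_ hu
      · rintro _ ⟨m, rfl⟩
        exact h3 m trivial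
      · have : af L (0 : MvPolynomial (Fin 3) K) = 0 := by
          unfold af
          exact Finset.sum_eq_zero fun j _ => by rw [map_zero, mul_zero]
        rw [this]
        exact Q.zero_mem
      · intro a b _ _ ha hb
        have : af L (a + b) = af L a + af L b := by
          unfold af
          rw [← Finset.sum_add_distrib]
          exact Finset.sum_congr rfl fun j _ => by rw [map_add, mul_add]
        rw [this]
        exact Q.add_mem ha hb
      · intro r a _ ha
        have : af L (r • a) = r • af L a := by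
          unfold af
          rw [Finset.smul_sum]
          exact Finset.sum_congr rfl fun j _ => by rw [Derivation.map_smul, mul_smul_comm]
        rw [this]
        exact Q.smul_mem _ ha
    have hne : ∃ m, fP D P m ≠ 0 := by
      by_contra h0
      push Not at h0
      have : Q = ⊥ := by
        refine Submodule.span_eq_bot.2 ?_
        rintro _ ⟨m, rfl⟩
        exact h0 m
      rw [this, finrank_bot] at h2
      omega
    obtain ⟨m0, hm0⟩ := hne
    refine stable_false (y := fun i => x (t i)) h.x0 Q h2.le hQ2 ?_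
      (Submodule.subset_span ⟨m0, rfl⟩) hm0
    intro u hu v l hl
    rw [← af_single]
    refine hst1 _ 0 (fun j => ?_) u hu
    simp only [mul_assoc]
    rw [← Finset.mul_sum, hl, mul_zero, zero_mul]

end Pool.Agent.T2C.H96
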